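import Pool.Agent.Helper84.NB.Code

/-!
# Residues (project NB)

`dec : (Λ → F) → W` is additive and maps the functions supported on `X` onto `W`, for all `X` of size `h`. Then there is a
residue `res X y` with `|F| ^ h / |W|` values such that `y` is determined by its restriction to the complement of `X`, by
`dec y` and by `res X y`.
-/

set_option autoImplicit false
set_option linter.unusedSectionVars false

namespace Pool.Agent.Helper84.NB

section hide

variable {Λ F W : Type} [Fintype Λ] [DecidableEq Λ] [AddCommGroup F] [Finite F] [AddCommGroup W] [Finite W]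

/-- The functions supported on `X`. -/
def supp (F : Type) [AddCommGroup F] (X : Finset Λ) : AddSubgroup (Λ → F) where
  carrier := {y | ∀ l, l ∉ X → y l = 0}
  zero_mem' := fun _ _ => rfl
  add_mem' := fun {a b} ha hb l hl => by
    change a l + b l = 0
    rw [ha l hl, hb l hl, add_zero]
  neg_mem' := fun {a} ha l hl => by
    change -(a l) = 0
    rw [ha l hl, neg_zero]

theorem mem_supp {X : Finset Λ} {y : Λ → F} : y ∈ supp F X ↔ ∀ l, l ∉ X → y l = 0 := Iff.rfl

/-- The functions supported on `X` are the functions on `X`. -/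
def suppEquiv (X : Finset Λ) : supp F X ≃ (X → F) where
  toFun y l := (y : Λ → F) l
  invFun f := ⟨fun l => if h : l ∈ X then f ⟨l, h⟩ else 0, fun l hl => dif_neg hl⟩
  left_inv y := by
    apply Subtype.ext
    funext l
    by_cases h : l ∈ X
    · simp only [h, dif_pos]
    · simp only [h, dif_neg, not_false_eq_true]
      exact (y.2 l h).symm
  right_inv f := by
    funext l
    simp only [l.2, dif_pos]

theorem card_supp (X : Finset Λ) : Nat.card (supp F X) = Nat.card F ^ X.card := by
  rw [Nat.card_congr (suppEquiv X), Nat.card_fun, Nat.card_eq_fintype_card (α := X), Fintype.card_coe]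

/-- `dec` on the functions supported on `X`. -/
def decX (dec : (Λ → F) →+ W) (X : Finset Λ) : supp F X →+ W := dec.comp (supp F X).subtype

theorem card_ker (dec : (Λ → F) →+ W) (X : Finset Λ)
    (onto : ∀ w, ∃ y : Λ → F, (∀ l, l ∉ X → y l = 0) ∧ dec y = w) :
    Nat.card (decX dec X).ker * Nat.card W = Nat.card F ^ X.card := by
  have h1 : Function.Surjective (decX dec X) := fun w => by
    obtain ⟨y, hy, hw⟩ := onto w
    exact ⟨⟨y, hy⟩, hw⟩
  have h2 := AddSubgroup.card_eq_card_quotient_mul_card_addSubgroup (decX dec X).ker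
  rw [Nat.card_congr (QuotientAddGroup.quotientKerEquivOfSurjective _ h1).toEquiv, card_supp] at h2
  rw [h2, mul_comm]

theorem exists_res (dec : (Λ → F) →+ W) (h : ℕ) (hh : h ≤ Fintype.card Λ)
    (onto : ∀ X : Finset Λ, X.card = h → ∀ w, ∃ y : Λ → F, (∀ l, l ∉ X → y l = 0) ∧ dec y = w) :
    (Nat.card F ^ h / Nat.card W) * Nat.card W = Nat.card F ^ h ∧
    ∃ res : Finset Λ → (Λ → F) → Fin (Nat.card F ^ h / Nat.card W),
      ∀ X : Finset Λ, X.card = h → ∀ y y' : Λ → F, (∀ l, l ∉ X → y l = y' l) → dec y = dec y' →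
        res X y = res X y' → y = y' := by
  classical
  have hW : 0 < Nat.card W := Nat.card_pos
  have hF : 0 < Nat.card F := Nat.card_pos
  have key : ∀ X : Finset Λ, X.card = h → Nat.card (decX dec X).ker = Nat.card F ^ h / Nat.card W := by
    intro X hX
    have := card_ker dec X (onto X hX)
    rw [hX] at this
    rw [← this, Nat.mul_div_cancel _ hW]
  have hdiv : (Nat.card F ^ h / Nat.card W) * Nat.card W = Nat.card F ^ h := by
    obtain ⟨X, -, hX⟩ := Finset.exists_subset_card_eq (s := (Finset.univ : Finset Λ)) (n := h)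
      (by rwa [Finset.card_univ])
    rw [← key X hX, card_ker dec X (onto X hX), hX]
  refine ⟨hdiv, ?_⟩
  have hpos : 0 < Nat.card F ^ h / Nat.card W := by
    rcases Nat.eq_zero_or_pos (Nat.card F ^ h / Nat.card W) with h0 | h0
    · rw [h0, zero_mul] at hdiv
      exact absurd hdiv.symm (pow_pos hF h).ne'
    · exact h0
  have he : ∀ X : Finset Λ, X.card = h → Nonempty ((decX dec X).ker ≃ Fin (Nat.card F ^ h / Nat.card W)) :=
    fun X hX => ⟨(Finite.equivFinOfCardEq (key X hX))⟩
  -- representatives
  have hrep : ∀ (X : Finset Λ) (u : Λ → F) (w : W), X.card = h → ∃ y0 : Λ → F, (∀ l, l ∉ X → y0 l = u l) ∧ dec y0 = w := by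
    intro X u w hX
    obtain ⟨y, hy, hw⟩ := onto X hX (w - dec u)
    refine ⟨y + u, fun l hl => ?_, ?_⟩
    · rw [Pi.add_apply, hy l hl, zero_add]
    · rw [map_add, hw, sub_add_cancel]
  let cut : Finset Λ → (Λ → F) → (Λ → F) := fun X y l => if l ∈ X then 0 else y l
  let rep : Finset Λ → (Λ → F) → (Λ → F) := fun X y =>
    if hX : X.card = h then (hrep X (cut X y) (dec y) hX).choose else 0
  have rep1 : ∀ X, X.card = h → ∀ y l, l ∉ X → rep X y l = y l := by
    intro X hX y l hl
    have := (hrep X (cut X y) (dec y) hX).choose_spec.1 l hl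
    simp only [rep, dif_pos hX]
    rw [this]
    simp only [cut, if_neg hl]
  have rep2 : ∀ X, X.card = h → ∀ y, dec (rep X y) = dec y := by
    intro X hX y
    simp only [rep, dif_pos hX]
    exact (hrep X (cut X y) (dec y) hX).choose_spec.2
  have rep3 : ∀ X, ∀ y y', (∀ l, l ∉ X → y l = y' l) → dec y = dec y' → rep X y = rep X y' := by
    intro X y y' h1 h2
    have h3 : cut X y = cut X y' := by
      funext l
      simp only [cut]
      split_ifs with hl
      · rfl
      · exact h1 l hl
    simp only [rep, h3, h2]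
  have hmem1 : ∀ X, X.card = h → ∀ y, y - rep X y ∈ supp F X := by
    intro X hX y l hl
    rw [Pi.sub_apply, rep1 X hX y l hl, sub_self]
  have hmem2 : ∀ X (hX : X.card = h) y, (⟨y - rep X y, hmem1 X hX y⟩ : supp F X) ∈ (decX dec X).ker := by
    intro X hX y
    rw [AddMonoidHom.mem_ker]
    change dec (y - rep X y) = 0
    rw [map_sub, rep2 X hX y, sub_self]
  refine ⟨fun X y => if hX : X.card = h then (he X hX).some ⟨⟨y - rep X y, hmem1 X hX y⟩, hmem2 X hX y⟩ else ⟨0, hpos⟩, ?_⟩
  intro X hX y y' h1 h2 h3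
  simp only [dif_pos hX] at h3
  have h4 := (he X hX).some.injective h3
  have h5 : y - rep X y = y' - rep X y' := congrArg (fun z : (decX dec X).ker => ((z : supp F X) : Λ → F)) h4
  rw [rep3 X y y' h1 h2] at h5
  exact sub_left_injective h5

end hide

section code2

variable {F K : Type} [Field F] [Fintype F] [Field K] [Fintype K] [Algebra F K]

/-- The word of a block: index set `D × Fin e`, through an enumeration of it. -/
noncomputable def decD {D : Type} {e r : ℕ} (ε : D × Fin e ≃ Fin r) : (K × K → F) →+ (D → Fin e → K) where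
  toFun y d i := ∑ p : K × K, y p • (p.2 * p.1 ^ (ε (d, i) : ℕ))
  map_zero' := by
    funext d i
    simp
  map_add' y z := by
    funext d i
    simp only [Pi.add_apply, add_smul, Finset.sum_add_distrib]

theorem decD_apply {D : Type} {e r : ℕ} (ε : D × Fin e ≃ Fin r) (y : K × K → F) (d : D) (i : Fin e) :
    decD ε y d i = ∑ p : K × K, y p • (p.2 * p.1 ^ (ε (d, i) : ℕ)) := rfl

/-- `decD` is onto on every large set of coordinates. -/
theorem decD_onto {D : Type} {e r : ℕ} (ε : D × Fin e ≃ Fin r) (hr : 1 ≤ r) (hrK : r ≤ Fintype.card K)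
    (X : Finset (K × K))
    (hX : (r - 1) * Fintype.card K +
      (Fintype.card K - (r - 1)) * (Fintype.card K / Fintype.card F) < X.card) (w : D → Fin e → K) :
    ∃ y : K × K → F, (∀ p, p ∉ X → y p = 0) ∧ decD ε y = w := by
  obtain ⟨y, hy, hw⟩ := code_onto (F := F) r hr hrK X hX (fun i => w (ε.symm i).1 (ε.symm i).2)
  refine ⟨y, hy, ?_⟩
  funext d i
  rw [decD_apply, hw (ε (d, i)), Equiv.symm_apply_apply]

end code2

end Pool.Agent.Helper84.NB
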