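import Pool.Agent.Helper27.NB.Defs
import Pool.Agent.Helper27.NB.Word
import Pool.Agent.Helper84.NB.Hide

/-!
# The words of the blocks are hidden (project NB, B13)
-/

set_option autoImplicit false

namespace Pool.Agent.Helper84.NB

open Pool.Agent.Helper27.NB (Hide word)

/-- `word` as a homomorphism. -/
def wordHom {F K D : Type} [Field F] [Field K] [Fintype K] [Algebra F K] (e : ℕ) (num : D → ℕ) :
    (K × K → F) →+ (D → Fin e → K) where
  toFun := word e num
  map_zero' := by
    funext c i
    simp [word]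
  map_add' y z := by
    funext c i
    simp only [word, Pi.add_apply, add_smul, Finset.sum_add_distrib]

theorem word_onto {F K D : Type} [Field F] [Fintype F] [Field K] [Fintype K] [Algebra F K] [Fintype D] (e : ℕ)
    (he : 1 ≤ e) (num : D → ℕ) (hnum : Function.Injective num) (hlt : ∀ c, num c < Fintype.card D) [Nonempty D]
    (hrK : e * Fintype.card D ≤ Fintype.card K) (X : Finset (K × K))
    (hX : (e * Fintype.card D - 1) * Fintype.card K +
      (Fintype.card K - (e * Fintype.card D - 1)) * (Fintype.card K / Fintype.card F) < X.card)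
    (w : D → Fin e → K) :
    ∃ y : K × K → F, (∀ p, p ∉ X → y p = 0) ∧ word e num y = w := by
  classical
  have hr : 1 ≤ e * Fintype.card D := Nat.mul_pos he Fintype.card_pos
  let v : Fin (e * Fintype.card D) → K := fun j =>
    if hj : ∃ q : D × Fin e, e * num q.1 + (q.2 : ℕ) = j then w hj.choose.1 hj.choose.2 else 0
  have hinj : ∀ q q' : D × Fin e, e * num q.1 + (q.2 : ℕ) = e * num q'.1 + (q'.2 : ℕ) → q = q' := by
    rintro ⟨c, i⟩ ⟨c', i'⟩ h
    simp only at h
    have h1 : (e * num c + (i : ℕ)) / e = num c := by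
      rw [Nat.mul_add_div (by omega), Nat.div_eq_of_lt i.2, add_zero]
    have h2 : (e * num c' + (i' : ℕ)) / e = num c' := by
      rw [Nat.mul_add_div (by omega), Nat.div_eq_of_lt i'.2, add_zero]
    have h3 : num c = num c' := by rw [← h1, ← h2, h]
    have h4 : c = c' := hnum h3
    subst h4
    have h5 : (i : ℕ) = i' := by omega
    rw [Fin.ext h5]
  obtain ⟨y, hy, hv⟩ := code_onto (F := F) (e * Fintype.card D) hr hrK X hX v
  refine ⟨y, hy, ?_⟩
  funext c i
  have hb : e * num c + (i : ℕ) < e * Fintype.card D := by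
    have h1 := hlt c
    have h2 := i.2
    calc e * num c + (i : ℕ) < e * num c + e := by omega
      _ = e * (num c + 1) := by ring
      _ ≤ e * Fintype.card D := Nat.mul_le_mul_left e h1
  have h1 := hv ⟨e * num c + (i : ℕ), hb⟩
  have hj : ∃ q : D × Fin e, e * num q.1 + (q.2 : ℕ) = (⟨e * num c + (i : ℕ), hb⟩ : Fin (e * Fintype.card D)) :=
    ⟨(c, i), rfl⟩
  have h2 : v ⟨e * num c + (i : ℕ), hb⟩ = w c i := by
    simp only [v]
    rw [dif_pos hj]
    have h3 : hj.choose = (c, i) := hinj _ _ hj.choose_spec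
    rw [h3]
  rw [h2] at h1
  exact h1

/-- B13: the words of the blocks are hidden. -/
theorem exists_hide {F K D : Type} [Field F] [Fintype F] [Field K] [Fintype K] [Algebra F K] [Fintype D] (e : ℕ)
    (he : 1 ≤ e) (num : D → ℕ) (hnum : Function.Injective num) (hlt : ∀ c, num c < Fintype.card D) [Nonempty D]
    (hrK : e * Fintype.card D ≤ Fintype.card K) (h : ℕ) (hcard : h ≤ Fintype.card K ^ 2)
    (hh : (e * Fintype.card D - 1) * Fintype.card K +
      (Fintype.card K - (e * Fintype.card D - 1)) * (Fintype.card K / Fintype.card F) < h) :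
    ∃ (ρ : ℕ) (H : Hide (K × K) F (D → Fin e → K) ρ h), H.dec = word e num := by
  classical
  obtain ⟨h1, res, h2⟩ := exists_res (wordHom (F := F) (K := K) e num) h
    (by rw [Fintype.card_prod, ← pow_two]; exact hcard)
    (fun X hX w => word_onto (F := F) e he num hnum hlt hrK X (by rw [hX]; exact hh) w)
  exact ⟨_, ⟨word e num, res, h2, h1⟩, rfl⟩

end Pool.Agent.Helper84.NB
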