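import Mathlib

/-!
# The number of the symbols of a block which may be known
-/

set_option autoImplicit false

namespace Pool.Agent.Helper84.NB

/-- The number of the symbols of a block which may be known: `(Q - (r - 1)) (Q - Q / q) - 1`. -/
theorem places {Q q r : ℕ} (hq : 2 ≤ q) (hr : 1 ≤ r) (hrQ : r ≤ Q) :
    1 ≤ (Q - (r - 1)) * (Q - Q / q) ∧ (r - 1) * Q + (Q - (r - 1)) * (Q / q) + (Q - (r - 1)) * (Q - Q / q) = Q ^ 2 := by
  have hQ : 1 ≤ Q := hr.trans hrQ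
  have h1 : Q / q < Q := Nat.div_lt_self hQ hq
  refine ⟨Nat.mul_pos (by omega) (by omega), ?_⟩
  obtain ⟨u, hu⟩ : ∃ u, Q = (r - 1) + u := ⟨Q - (r - 1), by omega⟩
  obtain ⟨v, hv⟩ : ∃ v, Q = Q / q + v := ⟨Q - Q / q, by omega⟩
  have e1 : Q - (r - 1) = u := by omega
  have e2 : Q - Q / q = v := by omega
  rw [e1, e2, add_assoc, ← mul_add, ← hv, ← add_mul, ← hu, pow_two]

end Pool.Agent.Helper84.NB
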