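import Pool.Agent.Helper27.NB.Main
import Pool.Agent.Helper84.NB.Word
import Pool.Agent.Helper84.NB.Places

/-!
# The bound with the explicit words (project NB, B18a)
-/

set_option autoImplicit false

namespace Pool.Agent.Helper84.NB

open Pool.Agent.Helper19.NF (Prog out Pos Dir)
open Pool.Agent.Helper27.NB (Hide word num num_injective num_lt wd main_bound)

/-- B18a: the bound with the words written out. -/
theorem word_bound {F K : Type} [Field F] [Fintype F] [Field K] [Fintype K] [Algebra F K] {n m : ℕ} [NeZero m]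
    {σ S : ℕ} {Y : Type} (hn : 1 ≤ n) (e : ℕ) (he : 1 ≤ e) (hr : e * (2 * m) ≤ Fintype.card K)
    (x0 : Pos n m → Fin e → K) (h0 : Function.Injective x0)
    (P : Prog ((Fin e → K) × (K × K)) F (Y × Fin σ) σ S) (φ : (Fin e → K) → Y) (p T : ℕ)
    (hφ : ∀ y, Nat.card {b // φ b = y} ≤ p) (x : ℝ) (hx : 0 < x) :
    (Nat.card {s : Fin σ × ((Fin e → K) × (K × K) → F) //
        P.Outputs s.2 (P.start s.1) (φ (out x0 (fun b => word e num fun l => s.2 (b, l))), s.1) ∧
        Nat.card {b // P.Asks s.2 (P.start s.1) b} ≤ T} : ℝ) ≤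
      (σ * (((n * (n + 1) * m) ^ 2 + p) / (Fintype.card K ^ e : ℕ) +
          n * m * (((T / ((Fintype.card K - (e * (2 * m) - 1)) * (Fintype.card K - Fintype.card K / Fintype.card F)) : ℕ) : ℝ) /
            (Fintype.card K ^ e : ℕ)) ^ m) +
        S * (Real.exp x * (4 * m ^ 2 * ((T : ℝ) / (Fintype.card K ^ e : ℕ)) / x +
          2 * m ^ 2 * n * (((T / ((Fintype.card K - (e * (2 * m) - 1)) *
            (Fintype.card K - Fintype.card K / Fintype.card F)) : ℕ) : ℝ) / (Fintype.card K ^ e : ℕ)) ^ m) ^ (n - 1))) *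
        Nat.card ((Fin e → K) × (K × K) → F) := by
  classical
  have hq2 : 2 ≤ Fintype.card F := Fintype.one_lt_card
  have hm : 1 ≤ m := Nat.one_le_iff_ne_zero.2 (NeZero.ne m)
  have hr1 : 1 ≤ e * (2 * m) := Nat.mul_pos he (by omega)
  obtain ⟨hp1, hp2⟩ := places (Q := Fintype.card K) hq2 hr1 hr
  have hcD : Fintype.card (Dir m) = 2 * m := by
    rw [Fintype.card_prod, Fintype.card_bool, ZMod.card]
  have hex := exists_hide (F := F) (K := K) (D := Dir m) e he num num_injective num_lt (by rw [hcD]; exact hr)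
    (Fintype.card K ^ 2 - ((Fintype.card K - (e * (2 * m) - 1)) *
      (Fintype.card K - Fintype.card K / Fintype.card F) - 1)) (Nat.sub_le _ _)
  rw [hcD] at hex
  generalize hAdef : (Fintype.card K - (e * (2 * m) - 1)) * (Fintype.card K - Fintype.card K / Fintype.card F) = A at *
  obtain ⟨ρ, H, hH⟩ := hex (by omega)
  have hcB : Fintype.card (Fin e → K) = Fintype.card K ^ e := by
    rw [Fintype.card_fun, Fintype.card_fin]
  have hah : (A - 1) + (Fintype.card K ^ 2 - (A - 1)) = Fintype.card (K × K) := by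
    rw [Fintype.card_prod, ← pow_two]
    omega
  have h1 := main_bound hn H hah x0 h0 P φ p T hφ x hx
  rw [hcB, Nat.sub_add_cancel hp1] at h1
  have h2 : ∀ J : (Fin e → K) × (K × K) → F, wd H J = fun b => word e num fun l => J (b, l) := by
    intro J
    funext b
    rw [wd, hH]
  simp only [h2] at h1
  exact h1

/-- B18a in the form of the frame `bound_word` (`table J = fun b c => word e num (fun l => J (b, l)) c`). -/
theorem bound_word {F K : Type} [Field F] [Fintype F] [Field K] [Fintype K] [Algebra F K] {n m e σ S : ℕ} [NeZero m]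
    {Y : Type} (hn : 1 ≤ n) (he : 1 ≤ e) (hQ : 2 * m * e ≤ Fintype.card K) (x : ℝ) (hx : 0 < x)
    (x0 : ZMod (n + 1) × ZMod m → Fin e → K) (h0 : Function.Injective x0) (φ : (Fin e → K) → Y) (p T : ℕ)
    (hφ : ∀ y, Nat.card {b // φ b = y} ≤ p) (P : Prog ((Fin e → K) × (K × K)) F (Y × Fin σ) σ S) :
    (Nat.card {s : Fin σ × ((Fin e → K) × (K × K) → F) //
          P.Outputs s.2 (P.start s.1) (φ (out x0 (fun b c => word e num (fun l => s.2 (b, l)) c)), s.1) ∧
          Nat.card {b // P.Asks s.2 (P.start s.1) b} ≤ T} : ℝ) ≤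
        (σ * (((n * (n + 1) * m) ^ 2 + p) / (Fintype.card K : ℝ) ^ e + n * m *
            (((T / ((Fintype.card K - (2 * m * e - 1)) * (Fintype.card K - Fintype.card K / Fintype.card F)) : ℕ) : ℝ) /
              (Fintype.card K : ℝ) ^ e) ^ m) +
          S * (Real.exp x * (4 * m ^ 2 * ((T : ℝ) / (Fintype.card K : ℝ) ^ e) / x + 2 * m ^ 2 * n *
            (((T / ((Fintype.card K - (2 * m * e - 1)) * (Fintype.card K - Fintype.card K / Fintype.card F)) : ℕ) : ℝ) /
              (Fintype.card K : ℝ) ^ e) ^ m) ^ (n - 1))) * Nat.card ((Fin e → K) × (K × K) → F) := by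
  have hc : e * (2 * m) = 2 * m * e := mul_comm _ _
  have h1 := word_bound hn e he (by rw [hc]; exact hQ) x0 h0 P φ p T hφ x hx
  rw [hc] at h1
  simpa only [Nat.cast_pow] using h1

end Pool.Agent.Helper84.NB
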