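import Mathlib

/-!
# The code (project NB)

`F` is a finite field, `K` a finite extension. A block is a function `y : K × K → F`; its word is the vector of the sums
`∑ y (x, z) • (z * x ^ i)`, `i < r`. `code_onto`: every word is the word of a block supported on `X`, if `X` is large.
-/

set_option autoImplicit false
set_option linter.unusedSectionVars false

namespace Pool.Agent.Helper84.NB

section code

variable {F K : Type} [Field F] [Fintype F] [Field K] [Fintype K] [Algebra F K]

/-- The functional `φ` on the line of the vector `(x ^ i)`. -/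
def psi {r : ℕ} (φ : (Fin r → K) →ₗ[F] F) (x : K) : K →ₗ[F] F where
  toFun z := φ (fun i => z * x ^ (i : ℕ))
  map_add' z z' := by
    rw [← map_add]
    congr 1
    funext i
    simp only [Pi.add_apply]
    ring
  map_smul' c z := by
    rw [RingHom.id_apply, ← map_smul]
    congr 1
    funext i
    simp only [Pi.smul_apply, smul_mul_assoc]

theorem psi_apply {r : ℕ} (φ : (Fin r → K) →ₗ[F] F) (x z : K) :
    psi φ x z = φ (fun i => z * x ^ (i : ℕ)) := rfl

/-- If `ψ_x = 0` for `r` different `x` then `φ = 0`. -/
theorem eq_zero_of_psi {r : ℕ} (φ : (Fin r → K) →ₗ[F] F) (x : Fin r → K) (hx : Function.Injective x)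
    (h : ∀ j, psi φ (x j) = 0) : φ = 0 := by
  classical
  refine LinearMap.ext fun v => ?_
  rw [LinearMap.zero_apply]
  -- solve for the coefficients
  have hdet : IsUnit (Matrix.vandermonde x).det := by
    rw [isUnit_iff_ne_zero, Matrix.det_vandermonde_ne_zero_iff]
    exact hx
  have hu : IsUnit (Matrix.vandermonde x) := (Matrix.isUnit_iff_isUnit_det _).mpr hdet
  obtain ⟨c, hc⟩ := (Matrix.vecMul_surjective_iff_isUnit.mpr hu) v
  have h1 : v = ∑ j, (fun i : Fin r => c j * x j ^ (i : ℕ)) := by
    rw [← hc]
    funext i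
    rw [Finset.sum_apply]
    simp only [Matrix.vecMul, dotProduct, Matrix.vandermonde_apply]
  rw [h1, map_sum]
  refine Finset.sum_eq_zero fun j _ => ?_
  rw [← psi_apply, h j, LinearMap.zero_apply]

theorem card_ker_psi {ψ : K →ₗ[F] F} (h : ψ ≠ 0) :
    Fintype.card K = Fintype.card F * Nat.card (LinearMap.ker ψ) := by
  have h1 : Function.Surjective ψ := LinearMap.surjective h
  have h2 := AddSubgroup.card_eq_card_quotient_mul_card_addSubgroup (LinearMap.ker ψ).toAddSubgroup
  have h3 : Nat.card (K ⧸ (LinearMap.ker ψ).toAddSubgroup) = Nat.card F :=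
    Nat.card_congr (ψ.quotKerEquivOfSurjective h1).toEquiv
  rw [h3, Nat.card_eq_fintype_card, Nat.card_eq_fintype_card] at h2
  exact h2

theorem code_span (r : ℕ) (hr : 1 ≤ r) (hrK : r ≤ Fintype.card K) (X : Finset (K × K))
    (hX : (r - 1) * Fintype.card K +
      (Fintype.card K - (r - 1)) * (Fintype.card K / Fintype.card F) < X.card) :
    Submodule.span F ((fun p : K × K => (fun i : Fin r => p.2 * p.1 ^ (i : ℕ))) '' (X : Set (K × K))) = ⊤ := by
  classical
  by_contra hne
  obtain ⟨φ, hφ, hle⟩ := Submodule.exists_le_ker_of_lt_top _ (lt_top_iff_ne_top.mpr hne)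
  have h1 : ∀ p ∈ X, psi φ p.1 p.2 = 0 := by
    intro p hp
    have : (fun i : Fin r => p.2 * p.1 ^ (i : ℕ)) ∈ LinearMap.ker φ :=
      hle (Submodule.subset_span ⟨p, hp, rfl⟩)
    exact LinearMap.mem_ker.mp this
  set Z : Finset K := Finset.univ.filter (fun x => psi φ x = 0) with hZ
  have hZc : Z.card ≤ r - 1 := by
    by_contra hlt
    have h2 : r ≤ Z.card := by omega
    obtain ⟨Z', hZ', hZc'⟩ := Finset.exists_subset_card_eq h2
    have e := (Finset.equivFinOfCardEq hZc').symm
    refine hφ (eq_zero_of_psi φ (fun j => (e j : K)) (fun i j hij => e.injective (Subtype.ext hij)) fun j => ?_)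
    exact (Finset.mem_filter.mp (hZ' (e j).2)).2
  -- count
  have h3 : X.card ≤ ∑ x : K, if psi φ x = 0 then Fintype.card K else Fintype.card K / Fintype.card F := by
    have h4 : X ⊆ Finset.univ.filter (fun p : K × K => psi φ p.1 p.2 = 0) := fun p hp =>
      Finset.mem_filter.mpr ⟨Finset.mem_univ _, h1 p hp⟩
    refine (Finset.card_le_card h4).trans ?_
    have h5 : (Finset.univ.filter (fun p : K × K => psi φ p.1 p.2 = 0)).card =
        ∑ x : K, (Finset.univ.filter (fun z : K => psi φ x z = 0)).card := by
      rw [Finset.card_filter, Fintype.sum_prod_type]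
      refine Finset.sum_congr rfl fun x _ => ?_
      rw [Finset.card_filter]
    rw [h5]
    refine Finset.sum_le_sum fun x _ => ?_
    split_ifs with h
    · exact (Finset.card_filter_le _ _).trans_eq Finset.card_univ
    · have h6 := card_ker_psi h
      have h7 : (Finset.univ.filter (fun z : K => psi φ x z = 0)).card = Nat.card (LinearMap.ker (psi φ x)) := by
        rw [← Fintype.card_subtype, ← Nat.card_eq_fintype_card]
        exact Nat.card_congr (Equiv.subtypeEquivRight fun z => LinearMap.mem_ker.symm)
      rw [h7, h6, Nat.mul_div_cancel_left _ Fintype.card_pos]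
  have h8 : ∑ x : K, (if psi φ x = 0 then Fintype.card K else Fintype.card K / Fintype.card F) =
      Z.card * Fintype.card K + (Fintype.card K - Z.card) * (Fintype.card K / Fintype.card F) := by
    rw [Finset.sum_ite, Finset.sum_const, Finset.sum_const, smul_eq_mul, smul_eq_mul]
    congr 2
    have h9 := Finset.card_filter_add_card_filter_not (s := (Finset.univ : Finset K)) (fun x => psi φ x = 0)
    rw [Finset.card_univ] at h9
    change Z.card + _ = _ at h9
    omega
  have h10 : Fintype.card K / Fintype.card F ≤ Fintype.card K := Nat.div_le_self _ _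
  obtain ⟨u, hu⟩ : ∃ u, r - 1 = Z.card + u := ⟨r - 1 - Z.card, by omega⟩
  have h11 : Z.card * Fintype.card K + (Fintype.card K - Z.card) * (Fintype.card K / Fintype.card F) ≤
      (r - 1) * Fintype.card K + (Fintype.card K - (r - 1)) * (Fintype.card K / Fintype.card F) := by
    obtain ⟨w, hw⟩ : ∃ w, Fintype.card K = r - 1 + w := ⟨Fintype.card K - (r - 1), by omega⟩
    have e1 : Fintype.card K - Z.card = u + w := by omega
    have e2 : Fintype.card K - (r - 1) = w := by omega
    rw [e1, e2, hu, add_mul, add_mul]
    nlinarith [Nat.mul_le_mul_left u h10]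
  omega

/-- Every word is the word of a block supported on `X`, if `X` is large. -/
theorem code_onto (r : ℕ) (hr : 1 ≤ r) (hrK : r ≤ Fintype.card K) (X : Finset (K × K))
    (hX : (r - 1) * Fintype.card K +
      (Fintype.card K - (r - 1)) * (Fintype.card K / Fintype.card F) < X.card) (v : Fin r → K) :
    ∃ y : K × K → F, (∀ p ∉ X, y p = 0) ∧ ∀ i : Fin r, ∑ p, y p • (p.2 * p.1 ^ (i : ℕ)) = v i := by
  classical
  have h1 : v ∈ Submodule.span F
      ((fun p : K × K => (fun i : Fin r => p.2 * p.1 ^ (i : ℕ))) '' (X : Set (K × K))) := by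
    rw [code_span r hr hrK X hX]
    exact Submodule.mem_top
  rw [Submodule.mem_span_image_finset_iff_exists_fun] at h1
  obtain ⟨c, hc⟩ := h1
  refine ⟨fun p => if h : p ∈ X then c ⟨p, h⟩ else 0, fun p hp => dif_neg hp, fun i => ?_⟩
  rw [← hc, Finset.sum_apply]
  simp only [Pi.smul_apply]
  rw [← Finset.sum_subset (Finset.subset_univ X) (fun p _ hp => by rw [dif_neg hp, zero_smul]),
    ← Finset.sum_coe_sort X]
  refine Finset.sum_congr rfl fun p _ => ?_
  rw [dif_pos p.2]

end code

end Pool.Agent.Helper84.NB
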